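import Pool.Agent.H640.CA.Main

set_option autoImplicit false

/-!
Applications of the dichotomy: homomorphisms, group valued measures, submeasures.
-/

namespace Pool.Agent.H640.CA

open Set Filter Topology

variable {B : Type*} [BooleanAlgebra B]

/-! ### Ideals and homomorphisms -/

theorem ideal_sigma (hB : SigmaComplete B) (I : Order.Ideal B)
    (hf : ∀ a : ℕ → B, BaireMeasurableSet (Large (I : Set B) a)) :
    (∀ (a : ℕ → B) (s : B), (∀ n, a n ∈ I) → IsLUB (Set.range a) s → s ∈ I) ∨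
    ∃ h : (ℕ → Bool) → B, (∀ x, h x ∉ I) ∧ ∀ x y, x ≠ y → h x ⊓ h y ∈ I := by
  classical
  by_contra hcon
  push Not at hcon
  obtain ⟨⟨a, s, haI, hs, hsI⟩, hno⟩ := hcon
  let a' : ℕ → B := disjointed a
  have ha' : ∀ m n, m ≠ n → Disjoint (a' m) (a' n) := fun m n h => disjoint_disjointed a h
  have ha'I : ∀ n, a' n ∈ I := fun n => I.lower (disjointed_le a n) (haI n)
  have hfin : ∀ M, (Finset.range M).sup a' ∈ I := by
    intro M
    induction M with
    | zero =>
      simp only [Finset.range_zero, Finset.sup_empty]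
      exact I.bot_mem
    | succ M ih =>
      rw [Finset.range_add_one, Finset.sup_insert]
      exact I.sup_mem (ha'I M) ih
  have hs' : ∀ u, (∀ n, a' n ≤ u) → s ≤ u := by
    intro v hv
    refine hs.2 ?_
    rintro _ ⟨n, rfl⟩
    have h1 : a n ≤ partialSups a n := le_partialSups a n
    rw [← partialSups_disjointed] at h1
    exact h1.trans (partialSups_le _ _ _ fun i _ => hv i)
  rcases dichotomy hB ha' (W := (I : Set B)) (W' := (I : Set B))
      (fun b hb d hd _ => I.sup_mem hb hd) (hf a') with ⟨N, hN⟩ | ⟨A, hA, -, hAst⟩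
  · have h1 : s \ (Finset.range N).sup a' ∈ I := by
      refine hN _ fun v hv => ?_
      rw [sdiff_le_iff]
      refine hs' _ fun n => ?_
      by_cases hn : n < N
      · exact (Finset.le_sup (f := a') (Finset.mem_range.2 hn)).trans le_sup_left
      · exact (hv n (not_lt.1 hn)).trans le_sup_right
    refine hsI (I.lower ?_ (I.sup_mem h1 (hfin N)))
    rw [sdiff_sup_self]
    exact le_sup_left
  · obtain ⟨x, y, hne, hnd⟩ := hno (fun x => A x 0) fun x => hA x 0
    obtain ⟨M, hM⟩ := hAst x y hne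
    exact hnd (I.lower (hM 0 0) (hfin M))

/-- The ideal of all elements with value below `u`. -/
def below {C : Type*} [BooleanAlgebra C] (f : BoundedLatticeHom B C) (u : C) : Order.Ideal B where
  carrier := {b | f b ≤ u}
  lower' := fun _ _ h1 h2 => (OrderHomClass.mono f h1).trans h2
  nonempty' := ⟨⊥, by simp⟩
  directed' := fun b hb c hc => ⟨b ⊔ c, by
    change f (b ⊔ c) ≤ u
    rw [SupHomClass.map_sup]
    exact sup_le hb hc, le_sup_left, le_sup_right⟩

theorem hom_sigma (hB : SigmaComplete B) {C : Type*} [BooleanAlgebra C] (f : BoundedLatticeHom B C)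
    (hf : ∀ (u : C) (a : ℕ → B), BaireMeasurableSet (Large {b | f b ≤ u} a)) :
    (∀ (a : ℕ → B) (s : B), IsLUB (Set.range a) s → IsLUB (Set.range fun n => f (a n)) (f s)) ∨
    ∃ h : (ℕ → Bool) → C, (∀ s, h s ≠ ⊥) ∧ ∀ s t, s ≠ t → Disjoint (h s) (h t) := by
  classical
  by_contra hcon
  push Not at hcon
  obtain ⟨⟨a, s, hs, hns⟩, hno⟩ := hcon
  have hmon : Monotone f := OrderHomClass.mono f
  have hub : f s ∈ upperBounds (Set.range fun n => f (a n)) := by
    rintro _ ⟨n, rfl⟩
    exact hmon (hs.1 ⟨n, rfl⟩)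
  obtain ⟨u, hu, hsu⟩ : ∃ u, (∀ n, f (a n) ≤ u) ∧ ¬ f s ≤ u := by
    by_contra hc
    push Not at hc
    exact hns ⟨hub, fun u hu => hc u fun n => hu ⟨n, rfl⟩⟩
  rcases ideal_sigma hB (below f u) (fun a => hf u a) with h | ⟨h, h1, h2⟩
  · exact hsu (h a s hu hs)
  · obtain ⟨x, y, hne, hnd⟩ := hno (fun x => f (h x) \ u) fun x h3 => h1 x (sdiff_eq_bot_iff.1 h3)
    apply hnd
    rw [disjoint_iff]
    have h3 : f (h x) ⊓ f (h y) ≤ u := by
      rw [← InfHomClass.map_inf]
      exact h2 x y hne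
    have h4 : f (h x) \ u ⊓ f (h y) \ u ≤ u := (inf_le_inf sdiff_le sdiff_le).trans h3
    have h5 : Disjoint (f (h x) \ u ⊓ f (h y) \ u) u :=
      disjoint_sdiff_self_left.mono_left inf_le_left
    exact disjoint_self.1 (h5.mono_right h4)

/-! ### Quasi-additive maps -/

/-- Values at disjoint elements which are close to `z` give a value at the join close to `z`. -/
def QuasiAdditive {G : Type*} [TopologicalSpace G] (φ : B → G) (z : G) : Prop :=
  ∀ U ∈ 𝓝 z, ∃ V ∈ 𝓝 z, ∀ b c, Disjoint b c → φ b ∈ V → φ c ∈ V → φ (b ⊔ c) ∈ U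

/-- The values at the members of a disjoint sequence tend to `z`. -/
def Exhaustive {G : Type*} [TopologicalSpace G] (φ : B → G) (z : G) : Prop :=
  ∀ a : ℕ → B, (∀ m n, m ≠ n → Disjoint (a m) (a n)) → Tendsto (fun n => φ (a n)) atTop (𝓝 z)

theorem order_continuous (hB : SigmaComplete B) {G : Type*} [TopologicalSpace G] {φ : B → G} {z : G}
    (hq : QuasiAdditive φ z) (he : Exhaustive φ z)
    (hf : ∀ V ∈ 𝓝 z, ∀ a : ℕ → B, BaireMeasurableSet (Large (φ ⁻¹' V) a))
    {b : ℕ → B} (hb : Antitone b) (hb0 : IsGLB (Set.range b) ⊥) {U : Set G} (hU : U ∈ 𝓝 z) :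
    ∃ N, ∀ c ≤ b N, φ c ∈ U := by
  obtain ⟨V, hV, hVU⟩ := hq U hU
  have ha : ∀ m n, m < n → Disjoint (b m \ b (m + 1)) (b n \ b (n + 1)) := by
    intro m n hmn
    exact disjoint_sdiff_self_left.mono_right (sdiff_le.trans (hb (Nat.succ_le_of_lt hmn)))
  rcases dichotomy hB (a := fun n => b n \ b (n + 1)) (fun m n hmn => by
      rcases lt_or_gt_of_ne hmn with h | h
      · exact ha m n h
      · exact (ha n m h).symm) (W := φ ⁻¹' U) (W' := φ ⁻¹' V)
      (fun c hc d hd hcd => hVU c d hcd hc hd) (hf V hV _) with ⟨N, hN⟩ | ⟨A, hA, hAd, -⟩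
  · refine ⟨N, fun c hc => hN c fun u hu => ?_⟩
    have h1 : ∀ k, b N \ u ≤ b (N + k) := by
      intro k
      induction k with
      | zero => exact sdiff_le
      | succ k ih =>
        have h2 : b N \ u ≤ (b (N + k) \ b (N + k + 1)) ⊔ b (N + k + 1) := by
          rw [sdiff_sup_self]
          exact ih.trans le_sup_left
        have h3 : b N \ u ≤ u ⊔ b (N + k + 1) :=
          h2.trans (sup_le_sup_right (hu (N + k) (Nat.le_add_right _ _)) _)
        have h4 : b N \ u = (b N \ u) \ u := by rw [sdiff_idem]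
        rw [h4]
        exact sdiff_le_iff.2 h3
    have h5 : b N \ u ≤ ⊥ := by
      refine hb0.2 ?_
      rintro _ ⟨m, rfl⟩
      rcases le_total m N with h | h
      · exact (sdiff_le : b N \ u ≤ b N).trans (hb h)
      · obtain ⟨k, rfl⟩ := Nat.exists_eq_add_of_le h
        exact h1 k
    exact hc.trans (sdiff_eq_bot_iff.1 (le_bot_iff.1 h5))
  · exfalso
    have h1 := he (A fun _ => false) (fun m n hmn => hAd _ m n hmn)
    obtain ⟨n, hn⟩ := (h1.eventually_mem hV).exists
    exact hA _ n hn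

/-! ### Additive maps -/

/-- Finite additivity. -/
def Additive {G : Type*} [AddCommGroup G] (φ : B → G) : Prop :=
  ∀ b c, Disjoint b c → φ (b ⊔ c) = φ b + φ c

theorem Additive.bot {G : Type*} [AddCommGroup G] {φ : B → G} (h : Additive φ) : φ ⊥ = 0 := by
  have h1 := h ⊥ ⊥ disjoint_bot_left
  rw [sup_bot_eq] at h1
  simpa using h1

theorem Additive.quasi {G : Type*} [AddCommGroup G] [TopologicalSpace G] [IsTopologicalAddGroup G]
    {φ : B → G} (h : Additive φ) : QuasiAdditive φ 0 := by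
  intro U hU
  have h1 : Tendsto (fun p : G × G => p.1 + p.2) (𝓝 (0, 0)) (𝓝 0) := by
    have := (continuous_add (M := G)).tendsto (0, 0)
    simpa using this
  have h2 := h1 hU
  rw [nhds_prod_eq, Filter.mem_map, Filter.mem_prod_iff] at h2
  obtain ⟨V1, hV1, V2, hV2, h3⟩ := h2
  refine ⟨V1 ∩ V2, inter_mem hV1 hV2, fun b c hbc hb hc => ?_⟩
  rw [h b c hbc]
  exact h3 (Set.mk_mem_prod hb.1 hc.2)

theorem Additive.sup {G : Type*} [AddCommGroup G] {φ : B → G} (h : Additive φ) {a : ℕ → B}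
    (ha : ∀ m n, m ≠ n → Disjoint (a m) (a n)) (F : Finset ℕ) : φ (F.sup a) = ∑ n ∈ F, φ (a n) := by
  classical
  induction F using Finset.induction_on with
  | empty => simpa using h.bot
  | insert n F hn ih =>
    rw [Finset.sup_insert, Finset.sum_insert hn, ← ih]
    refine h _ _ ?_
    rw [Finset.disjoint_sup_right]
    intro m hm
    exact ha n m fun h' => hn (h' ▸ hm)

theorem sigma_additive (hB : SigmaComplete B) {G : Type*} [AddCommGroup G] [TopologicalSpace G]
    [IsTopologicalAddGroup G] {φ : B → G} (h : Additive φ) (he : Exhaustive φ 0)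
    (hf : ∀ V ∈ 𝓝 (0 : G), ∀ a : ℕ → B, BaireMeasurableSet (Large (φ ⁻¹' V) a))
    {a : ℕ → B} (ha : ∀ m n, m ≠ n → Disjoint (a m) (a n)) {s : B} (hs : IsLUB (Set.range a) s) :
    HasSum (fun n => φ (a n)) (φ s) := by
  classical
  have hanti : Antitone fun n => s \ (Finset.range n).sup a := by
    intro m n hmn
    exact sdiff_le_sdiff_left (Finset.sup_mono (Finset.range_mono hmn))
  have hglb : IsGLB (Set.range fun n => s \ (Finset.range n).sup a) ⊥ := by
    refine ⟨fun _ _ => bot_le, fun x hx => ?_⟩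
    have h1 : ∀ n, x ≤ s \ (Finset.range n).sup a := fun n => hx ⟨n, rfl⟩
    have h2 : ∀ n, Disjoint (a n) x := fun n =>
      (disjoint_sdiff_self_right.mono_left (Finset.le_sup (f := a)
        (Finset.mem_range.2 (Nat.lt_succ_self n)))).mono_right (h1 (n + 1))
    have h3 : s ≤ xᶜ := by
      refine hs.2 ?_
      rintro _ ⟨n, rfl⟩
      exact le_compl_iff_disjoint_right.2 (h2 n)
    have h4 : x ≤ s := (h1 0).trans sdiff_le
    have h5 : Disjoint x x := le_compl_iff_disjoint_right.1 (h4.trans h3)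
    exact (disjoint_self.1 h5).le
  rw [HasSum]
  have hsplit : ∀ F : Finset ℕ, φ s = ∑ n ∈ F, φ (a n) + φ (s \ F.sup a) := by
    intro F
    rw [← h.sup ha, ← h _ _ disjoint_sdiff_self_right, sup_sdiff_cancel_right]
    exact Finset.sup_le fun n _ => hs.1 ⟨n, rfl⟩
  rw [tendsto_def]
  intro U hU
  have hU' : {g : G | φ s - g ∈ U} ∈ 𝓝 (0 : G) := by
    have h1 : Tendsto (fun g : G => φ s - g) (𝓝 0) (𝓝 (φ s)) := by
      have : Continuous fun g : G => φ s - g := continuous_const.sub continuous_id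
      simpa using this.tendsto 0
    exact h1 hU
  obtain ⟨N, hN⟩ := order_continuous hB h.quasi he hf hanti hglb hU'
  simp only [SummationFilter.unconditional_filter]
  rw [mem_atTop_sets]
  refine ⟨Finset.range N, fun F hF => ?_⟩
  have h1 := hN (s \ F.sup a) (sdiff_le_sdiff_left (Finset.sup_mono hF))
  change φ s - φ (s \ F.sup a) ∈ U at h1
  change ∑ n ∈ F, φ (a n) ∈ U
  rwa [hsplit F, add_sub_cancel_right] at h1

/-- Bounded additive real functions are exhaustive. -/
theorem exhaustive_of_bounded {φ : B → ℝ} (h : Additive φ) {K : ℝ} (hK : ∀ b, |φ b| ≤ K) :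
    Exhaustive φ 0 := by
  classical
  intro a ha
  have h1 : ∀ F : Finset ℕ, ∑ n ∈ F, |φ (a n)| ≤ 2 * K := by
    intro F
    have h2 : ∑ n ∈ F, |φ (a n)| = (∑ n ∈ F with 0 ≤ φ (a n), φ (a n)) -
        ∑ n ∈ F with ¬ 0 ≤ φ (a n), φ (a n) := by
      rw [← Finset.sum_filter_add_sum_filter_not F (fun n => 0 ≤ φ (a n)) (fun n => |φ (a n)|),
        sub_eq_add_neg, ← Finset.sum_neg_distrib]
      congr 1
      · exact Finset.sum_congr rfl fun n hn => abs_of_nonneg (Finset.mem_filter.1 hn).2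
      · exact Finset.sum_congr rfl fun n hn => abs_of_neg (not_le.1 (Finset.mem_filter.1 hn).2)
    rw [h2, ← h.sup ha, ← h.sup ha]
    have h3 := hK ((F.filter fun n => 0 ≤ φ (a n)).sup a)
    have h4 := hK ((F.filter fun n => ¬ 0 ≤ φ (a n)).sup a)
    have h5 := abs_le.1 h3
    have h6 := abs_le.1 h4
    linarith [h5.2, h6.1]
  have h2 : Summable fun n => |φ (a n)| := summable_of_sum_le (fun _ => abs_nonneg _) h1
  have h3 := h2.tendsto_atTop_zero
  exact (tendsto_zero_iff_abs_tendsto_zero _).2 h3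

end Pool.Agent.H640.CA
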