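import Pool.Graph.R_pool_sql_team_seeded_1e53cb71.Helper50K9.TD.Cat

set_option autoImplicit false

/-!
A dichotomy for disjoint sequences in a Boolean algebra, from the property of Baire of upward closed
sets of reals.
-/

namespace Pool.Agent.H640.CA

open Set Filter Topology
open Pool.Agent.Helper50K9.TD

variable {B : Type*} [BooleanAlgebra B]

/-- All `x` such that for every `N` some element outside of `W` is below all upper bounds of the
`a n` with `n ≥ N` and `x n = true`. -/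
def Large (W : Set B) (a : ℕ → B) : Set (ℕ → Bool) :=
  {x | ∀ N, ∃ c ∉ W, ∀ u, (∀ n ≥ N, x n = true → a n ≤ u) → c ≤ u}

theorem up_large (W : Set B) (a : ℕ → B) : Up (Large W a) := by
  intro x y hx hxy N
  obtain ⟨c, hc, h⟩ := hx N
  exact ⟨c, hc, fun u hu => h u fun n hn hxn => hu n hn (hxy n hxn)⟩

theorem tail_large (W : Set B) (a : ℕ → B) : Tail (Large W a) := by
  intro x y hx hxy N
  obtain ⟨M, hM⟩ := eventually_atTop.1 hxy
  obtain ⟨c, hc, h⟩ := hx (max N M)
  refine ⟨c, hc, fun u hu => h u fun n hn hxn => hu n ((le_max_left _ _).trans hn) ?_⟩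
  rw [← hM n ((le_max_right _ _).trans hn)]
  exact hxn

/-- Every sequence has a least upper bound. -/
def SigmaComplete (B : Type*) [BooleanAlgebra B] : Prop :=
  ∀ a : ℕ → B, ∃ s, IsLUB (Set.range a) s

theorem SigmaComplete.sub (hB : SigmaComplete B) (a : ℕ → B) (P : ℕ → Prop) :
    ∃ s, (∀ n, P n → a n ≤ s) ∧ ∀ u, (∀ n, P n → a n ≤ u) → s ≤ u := by
  classical
  obtain ⟨s, hs⟩ := hB fun n => if P n then a n else ⊥
  refine ⟨s, fun n hn => ?_, fun u hu => hs.2 ?_⟩
  · have h := hs.1 ⟨n, rfl⟩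
    simpa only [hn, if_true] using h
  · rintro _ ⟨n, rfl⟩
    by_cases hn : P n
    · simpa only [hn, if_true] using hu n hn
    · simp only [hn, if_false]
      exact bot_le

theorem disj_under {a : ℕ → B} (ha : ∀ m n, m ≠ n → Disjoint (a m) (a n)) {P Q : ℕ → Prop}
    {c d : B} (hc : ∀ u, (∀ n, P n → a n ≤ u) → c ≤ u) (hd : ∀ u, (∀ n, Q n → a n ≤ u) → d ≤ u)
    (hPQ : ∀ n, P n → ¬ Q n) : Disjoint c d := by
  rw [← le_compl_iff_disjoint_right]
  refine hc _ fun n hn => ?_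
  rw [le_compl_comm]
  refine hd _ fun m hm => ?_
  rw [le_compl_iff_disjoint_right]
  refine ha m n ?_
  rintro rfl
  exact hPQ m hn hm

theorem almost_disj_under {a : ℕ → B} (ha : ∀ m n, m ≠ n → Disjoint (a m) (a n))
    {P Q : ℕ → Prop} {c d : B} (hc : ∀ u, (∀ n, P n → a n ≤ u) → c ≤ u)
    (hd : ∀ u, (∀ n, Q n → a n ≤ u) → d ≤ u) {M : ℕ} (hPQ : ∀ n ≥ M, P n → ¬ Q n) :
    c ⊓ d ≤ (Finset.range M).sup a := by
  have h1 : c ≤ dᶜ ⊔ (Finset.range M).sup a := by
    refine hc _ fun n hn => ?_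
    by_cases h : n < M
    · exact (Finset.le_sup (f := a) (Finset.mem_range.2 h)).trans le_sup_right
    · refine le_trans ?_ le_sup_left
      rw [le_compl_comm]
      refine hd _ fun m hm => ?_
      rw [le_compl_iff_disjoint_right]
      refine ha m n ?_
      rintro rfl
      exact hPQ m (not_lt.1 h) hn hm
  calc c ⊓ d ≤ (dᶜ ⊔ (Finset.range M).sup a) ⊓ d := inf_le_inf_right _ h1
    _ = (Finset.range M).sup a ⊓ d := by
        rw [inf_sup_right, compl_inf_self, bot_sup_eq]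
    _ ≤ (Finset.range M).sup a := inf_le_left

/-- **The dichotomy.** -/
theorem dichotomy (hB : SigmaComplete B) {a : ℕ → B} (ha : ∀ m n, m ≠ n → Disjoint (a m) (a n))
    {W W' : Set B} (hW : ∀ b ∈ W', ∀ c ∈ W', Disjoint b c → b ⊔ c ∈ W)
    (hb : BaireMeasurableSet (Large W' a)) :
    (∃ N, ∀ c, (∀ u, (∀ n ≥ N, a n ≤ u) → c ≤ u) → c ∈ W) ∨
    ∃ A : (ℕ → Bool) → ℕ → B, (∀ s j, A s j ∉ W') ∧ (∀ s i j, i ≠ j → Disjoint (A s i) (A s j)) ∧
      ∀ s t, s ≠ t → ∃ M, ∀ i j, A s i ⊓ A t j ≤ (Finset.range M).sup a := by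
  classical
  rcases Pool.Agent.Y576.TD.zero_one hb (fun x y hxy hx => tail_large W' a x y hx hxy) with h1 | h1
  · right
    obtain ⟨π, hπ, hπV⟩ := exists_partition (up_large W' a) h1
    obtain ⟨A, hA, hAd, hAs⟩ := exists_family hπ (K := Set.univ) Set.infinite_univ
    have h2 : ∀ s j, ∃ c ∉ W', ∀ u, (∀ n, n ∈ A s j → a n ≤ u) → c ≤ u := by
      intro s j
      obtain ⟨L, -, hL, hAL⟩ := hA s j
      obtain ⟨c, hc, h3⟩ := hπV L hL (fun n => decide (n ∈ A s j)) (by
        intro k hk n h3 h4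
        rw [decide_eq_true_iff, hAL]
        exact ⟨k, hk, h3, h4⟩) 0
      exact ⟨c, hc, fun u hu => h3 u fun n _ hn => hu n (by simpa using hn)⟩
    choose C hC hCu using h2
    refine ⟨C, hC, fun s i j hij => ?_, fun s t hst => ?_⟩
    · exact disj_under ha (hCu s i) (hCu s j) fun n hn =>
        Set.disjoint_left.1 (hAd s i j hij) hn
    · obtain ⟨M, hM⟩ := hAs s t hst
      exact ⟨M, fun i j => almost_disj_under ha (hCu s i) (hCu t j) fun n hn h => hM n hn i j h⟩
  · left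
    obtain ⟨x, hx1, hx2⟩ := exists_compl (W := (Large W' a)ᶜ) h1
    simp only [Large, Set.mem_compl_iff, Set.mem_ofPred_eq] at hx1 hx2
    push Not at hx1 hx2
    obtain ⟨N1, hN1⟩ := hx1
    obtain ⟨N2, hN2⟩ := hx2
    refine ⟨max N1 N2, fun c hc => ?_⟩
    obtain ⟨s1, hs1, hs1'⟩ := hB.sub a fun n => max N1 N2 ≤ n ∧ x n = true
    obtain ⟨s2, hs2, hs2'⟩ := hB.sub a fun n => max N1 N2 ≤ n ∧ x n = false
    have hcs : c ≤ s1 ⊔ s2 := by
      refine hc _ fun n hn => ?_
      cases hxn : x n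
      · exact (hs2 n ⟨hn, hxn⟩).trans le_sup_right
      · exact (hs1 n ⟨hn, hxn⟩).trans le_sup_left
    have hd : Disjoint s1 s2 := disj_under ha hs1' hs2' fun n hn hn' => by
      rw [hn.2] at hn'
      exact absurd hn'.2 (by simp)
    have hm1 : c ⊓ s1 ∈ W' := by
      by_contra hcon
      obtain ⟨u, hu, hcu⟩ := hN1 _ hcon
      apply hcu
      refine inf_le_right.trans (hs1' u fun n hn => hu n ((le_max_left _ _).trans hn.1) hn.2)
    have hm2 : c ⊓ s2 ∈ W' := by
      by_contra hcon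
      obtain ⟨u, hu, hcu⟩ := hN2 _ hcon
      apply hcu
      refine inf_le_right.trans (hs2' u fun n hn => hu n ((le_max_right _ _).trans hn.1) ?_)
      simp [hn.2]
    have h5 : c = (c ⊓ s1) ⊔ (c ⊓ s2) := by
      rw [← inf_sup_left]
      exact (inf_eq_left.2 hcs).symm
    rw [h5]
    exact hW _ hm1 _ hm2 (hd.mono inf_le_right inf_le_right)

end Pool.Agent.H640.CA
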