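import Pool.Agent.H640.CA.App

set_option autoImplicit false

/-!
Additive maps on monotone σ-complete partially ordered groups.
-/

namespace Pool.Agent.H640.CA

open Set Filter Topology

section Order

variable {E : Type*} [AddCommGroup E] [PartialOrder E] [IsOrderedAddMonoid E]

/-- Increasing sequences which are bounded above have least upper bounds. -/
def MonoComplete (E : Type*) [PartialOrder E] : Prop :=
  ∀ u : ℕ → E, Monotone u → BddAbove (Set.range u) → ∃ s, IsLUB (Set.range u) s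

/-- The terms are nonnegative and the partial sums are bounded. -/
def BSeries (a : ℕ → E) : Prop := (∀ n, 0 ≤ a n) ∧ ∃ e, ∀ n, ∑ i ∈ Finset.range n, a i ≤ e

/-- `s` is the sum of the `a n` with `n ∈ c`. -/
def SubSum (a : ℕ → E) (c : Set ℕ) (s : E) : Prop :=
  IsLUB (Set.range fun n => ∑ i ∈ Finset.range n, c.indicator a i) s

theorem isLUB_add {u v : ℕ → E} (hu : Monotone u) (hv : Monotone v) {s t : E}
    (hs : IsLUB (Set.range u) s) (ht : IsLUB (Set.range v) t) :
    IsLUB (Set.range fun n => u n + v n) (s + t) := by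
  refine ⟨?_, fun w hw => ?_⟩
  · rintro _ ⟨n, rfl⟩
    exact add_le_add (hs.1 ⟨n, rfl⟩) (ht.1 ⟨n, rfl⟩)
  · have h1 : ∀ m n, u m + v n ≤ w := fun m n =>
      (add_le_add (hu (le_max_left m n)) (hv (le_max_right m n))).trans (hw ⟨max m n, rfl⟩)
    have h2 : ∀ m, t ≤ w - u m := by
      intro m
      refine ht.2 ?_
      rintro _ ⟨n, rfl⟩
      rw [le_sub_iff_add_le, add_comm]
      exact h1 m n
    have h3 : s ≤ w - t := by
      refine hs.2 ?_
      rintro _ ⟨m, rfl⟩
      rw [le_sub_iff_add_le, add_comm]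
      have := h2 m
      rw [le_sub_iff_add_le] at this
      exact this
    rwa [le_sub_iff_add_le] at h3

theorem ind_nonneg {a : ℕ → E} (ha : ∀ n, 0 ≤ a n) (c : Set ℕ) (i : ℕ) : 0 ≤ c.indicator a i :=
  Set.indicator_nonneg (fun n _ => ha n) i

theorem mono_partial {a : ℕ → E} (ha : ∀ n, 0 ≤ a n) (c : Set ℕ) :
    Monotone fun n => ∑ i ∈ Finset.range n, c.indicator a i := by
  refine monotone_nat_of_le_succ fun n => ?_
  rw [Finset.sum_range_succ]
  exact le_add_of_nonneg_right (ind_nonneg ha c n)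

theorem exists_sub (hE : MonoComplete E) {a : ℕ → E} (ha : BSeries a) (c : Set ℕ) :
    ∃ s, SubSum a c s := by
  obtain ⟨h0, e, he⟩ := ha
  refine hE _ (mono_partial h0 c) ⟨e, ?_⟩
  rintro _ ⟨n, rfl⟩
  refine (Finset.sum_le_sum fun i _ => ?_).trans (he n)
  exact Set.indicator_le_self' (fun _ _ => h0 i) i

theorem SubSum.unique {a : ℕ → E} {c : Set ℕ} {s t : E} (hs : SubSum a c s) (ht : SubSum a c t) :
    s = t := IsLUB.unique hs ht

theorem SubSum.union {a : ℕ → E} (ha : ∀ n, 0 ≤ a n) {c d : Set ℕ} (hcd : Disjoint c d) {s t : E}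
    (hs : SubSum a c s) (ht : SubSum a d t) : SubSum a (c ∪ d) (s + t) := by
  have h := isLUB_add (mono_partial ha c) (mono_partial ha d) hs ht
  have h2 : (fun n => ∑ i ∈ Finset.range n, (c ∪ d).indicator a i) = fun n =>
      ∑ i ∈ Finset.range n, c.indicator a i + ∑ i ∈ Finset.range n, d.indicator a i := by
    funext n
    rw [← Finset.sum_add_distrib]
    refine Finset.sum_congr rfl fun i _ => ?_
    rw [Set.indicator_union_of_disjoint hcd]
  rw [SubSum, h2]
  exact h

theorem SubSum.nonneg {a : ℕ → E} {c : Set ℕ} {s : E} (hs : SubSum a c s) : 0 ≤ s :=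
  hs.1 ⟨0, by simp⟩

theorem SubSum.le {a : ℕ → E} (ha : ∀ n, 0 ≤ a n) {e : E}
    (he : ∀ n, ∑ i ∈ Finset.range n, a i ≤ e) {c : Set ℕ} {s : E} (hs : SubSum a c s) : s ≤ e := by
  refine hs.2 ?_
  rintro _ ⟨n, rfl⟩
  refine (Finset.sum_le_sum fun i _ => ?_).trans (he n)
  exact Set.indicator_le_self' (fun _ _ => ha i) i

theorem SubSum.empty (a : ℕ → E) : SubSum a ∅ 0 := by
  have h : (Set.range fun n => ∑ i ∈ Finset.range n, (∅ : Set ℕ).indicator a i) = {0} := by
    ext x
    simp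
  rw [SubSum, h]
  exact isLUB_singleton

variable {G : Type*} [AddCommGroup G] [TopologicalSpace G]

/-- The values at the terms of bounded series tend to zero. -/
def Exh (f : E →+ G) : Prop := ∀ a : ℕ → E, BSeries a → Tendsto (fun n => f (a n)) atTop (𝓝 0)

/-- The test sets. -/
def LargeO (f : E →+ G) (V : Set G) (a : ℕ → E) : Set (ℕ → Bool) :=
  {x | ∀ N, ∃ c : Set ℕ, (∀ n ∈ c, N ≤ n ∧ x n = true) ∧ ∃ s, SubSum a c s ∧ f s ∉ V}

theorem sigmaComplete_set : SigmaComplete (Set ℕ) := fun a =>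
  ⟨⨆ n, a n, isLUB_iSup⟩

theorem sum_of_disjoint {a : ℕ → E} (ha : ∀ n, 0 ≤ a n) {S : Set ℕ → E}
    (hS : ∀ c, SubSum a c (S c)) {X : ℕ → Set ℕ} (hX : ∀ m n, m ≠ n → Disjoint (X m) (X n))
    (J : ℕ) : SubSum a (⋃ j ∈ Finset.range J, X j) (∑ j ∈ Finset.range J, S (X j)) := by
  induction J with
  | zero => simpa using SubSum.empty a
  | succ J ih =>
    rw [Finset.sum_range_succ]
    have h1 : (⋃ j ∈ Finset.range (J + 1), X j) = (⋃ j ∈ Finset.range J, X j) ∪ X J := by
      rw [Finset.range_add_one, Finset.set_biUnion_insert, Set.union_comm]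
    rw [h1]
    refine ih.union ha ?_ (hS _)
    rw [Set.disjoint_iUnion₂_left]
    intro j hj
    exact hX j J (Finset.mem_range.1 hj).ne

theorem largeO_eq {f : E →+ G} {V : Set G} {a : ℕ → E} {S : Set ℕ → E}
    (hS : ∀ c, SubSum a c (S c)) :
    LargeO f V a = Large ((fun c : Set ℕ => f (S c)) ⁻¹' V) (fun n => ({n} : Set ℕ)) := by
  ext x
  refine forall_congr' fun N => ⟨?_, ?_⟩
  · rintro ⟨c, hc, s, hs, hfs⟩
    refine ⟨c, ?_, fun u hu n hn => ?_⟩
    · rw [Set.mem_preimage, (hS c).unique hs]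
      exact hfs
    · exact hu n (hc n hn).1 (hc n hn).2 rfl
  · rintro ⟨c, hc, hcu⟩
    refine ⟨c, fun n hn => ?_, S c, hS c, hc⟩
    exact hcu {n | N ≤ n ∧ x n = true} (fun m hm hxm k hk => by
      rw [Set.mem_singleton_iff] at hk
      rw [hk]
      exact ⟨hm, hxm⟩) hn

theorem uniform [IsTopologicalAddGroup G] (hE : MonoComplete E) {f : E →+ G} (hf : Exh f)
    {a : ℕ → E} (ha : BSeries a)
    (hb : ∀ V ∈ 𝓝 (0 : G), BaireMeasurableSet (LargeO f V a)) {U : Set G} (hU : U ∈ 𝓝 (0 : G)) :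
    ∃ N, ∀ c : Set ℕ, (∀ n ∈ c, N ≤ n) → ∀ s, SubSum a c s → f s ∈ U := by
  classical
  choose S hS using exists_sub hE ha
  have hadd : ∀ c d : Set ℕ, Disjoint c d → S (c ∪ d) = S c + S d := fun c d hcd =>
    (hS _).unique ((hS c).union ha.1 hcd (hS d))
  have h1 : Tendsto (fun p : G × G => p.1 + p.2) (𝓝 (0, 0)) (𝓝 0) := by
    have := (continuous_add (M := G)).tendsto (0, 0)
    simpa using this
  have h2 := h1 hU
  rw [nhds_prod_eq, Filter.mem_map, Filter.mem_prod_iff] at h2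
  obtain ⟨V1, hV1, V2, hV2, h3⟩ := h2
  have hV : V1 ∩ V2 ∈ 𝓝 (0 : G) := inter_mem hV1 hV2
  have hbV := hb _ hV
  rw [largeO_eq hS] at hbV
  rcases dichotomy sigmaComplete_set (a := fun n => ({n} : Set ℕ))
      (fun m n hmn => by simpa using hmn) (W := (fun c : Set ℕ => f (S c)) ⁻¹' U)
      (W' := (fun c : Set ℕ => f (S c)) ⁻¹' (V1 ∩ V2)) (fun c hc d hd hcd => by
        change f (S (c ∪ d)) ∈ U
        rw [hadd c d hcd, map_add]
        exact h3 (Set.mk_mem_prod hc.1 hd.2)) hbV with ⟨N, hN⟩ | ⟨A, hA, hAd, -⟩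
  · refine ⟨N, fun c hc s hs => ?_⟩
    have h4 := hN c fun u hu n hn => hu n (hc n hn) rfl
    rw [Set.mem_preimage, (hS c).unique hs] at h4
    exact h4
  · exfalso
    obtain ⟨e, he⟩ := ha.2
    have h4 : BSeries fun j => S (A (fun _ => false) j) := by
      refine ⟨fun j => (hS _).nonneg, e, fun J => ?_⟩
      exact (sum_of_disjoint ha.1 hS (fun m n hmn => hAd _ m n hmn) J).le ha.1 he
    obtain ⟨j, hj⟩ := ((hf _ h4).eventually_mem hV).exists
    exact hA _ j hj

theorem order_cont [IsTopologicalAddGroup G] (hE : MonoComplete E) {f : E →+ G} (hf : Exh f)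
    (hb : ∀ V ∈ 𝓝 (0 : G), ∀ a : ℕ → E, BSeries a → BaireMeasurableSet (LargeO f V a))
    {x : ℕ → E} (hx : Antitone x) (hx0 : IsGLB (Set.range x) 0) :
    Tendsto (fun n => f (x n)) atTop (𝓝 0) := by
  have hx1 : ∀ n, 0 ≤ x n := fun n => hx0.1 ⟨n, rfl⟩
  have hsum : ∀ n, ∑ i ∈ Finset.range n, (x i - x (i + 1)) = x 0 - x n :=
    fun n => Finset.sum_range_sub' x n
  have ha : BSeries fun n => x n - x (n + 1) := by
    refine ⟨fun n => sub_nonneg.2 (hx (Nat.le_succ n)), x 0, fun n => ?_⟩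
    rw [hsum]
    exact sub_le_self _ (hx1 n)
  have hsub : ∀ N, SubSum (fun n => x n - x (n + 1)) {n | N ≤ n} (x N) := by
    intro N
    have h1 : ∀ n, N ≤ n → ∑ i ∈ Finset.range n,
        ({n | N ≤ n} : Set ℕ).indicator (fun n => x n - x (n + 1)) i = x N - x n := by
      intro n hn
      induction n, hn using Nat.le_induction with
      | base =>
        rw [sub_self]
        refine Finset.sum_eq_zero fun i hi => ?_
        refine Set.indicator_of_notMem ?_ _
        simpa using Finset.mem_range.1 hi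
      | succ n hn ih =>
        rw [Finset.sum_range_succ, ih, Set.indicator_of_mem (by exact hn)]
        abel
    refine ⟨?_, fun u hu => ?_⟩
    · rintro _ ⟨n, rfl⟩
      rcases le_total N n with h | h
      · change ∑ i ∈ Finset.range n, _ ≤ x N
        rw [h1 n h]
        exact sub_le_self _ (hx1 n)
      · change ∑ i ∈ Finset.range n, _ ≤ x N
        have h2 : ∑ i ∈ Finset.range n,
            ({n | N ≤ n} : Set ℕ).indicator (fun n => x n - x (n + 1)) i = 0 := by
          refine Finset.sum_eq_zero fun i hi => ?_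
          refine Set.indicator_of_notMem ?_ _
          have := Finset.mem_range.1 hi
          change ¬ N ≤ i
          omega
        rw [h2]
        exact hx1 N
    · have hu0 : 0 ≤ u := hu ⟨0, by simp⟩
      have h2 : x N - u ≤ 0 := by
        refine hx0.2 ?_
        rintro _ ⟨n, rfl⟩
        rcases le_total N n with h | h
        · have h3 : x N - x n ≤ u := by
            rw [← h1 n h]
            exact hu ⟨n, rfl⟩
          rw [sub_le_iff_le_add]
          rw [sub_le_iff_le_add] at h3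
          rw [add_comm]
          exact h3
        · exact (sub_le_self _ hu0).trans (hx h)
      exact sub_nonpos.1 h2
  rw [tendsto_def]
  intro U hU
  obtain ⟨N, hN⟩ := uniform hE hf ha (fun V hV => hb V hV _ ha) hU
  rw [Filter.mem_atTop_sets]
  exact ⟨N, fun n hn => hN {m | n ≤ m} (fun m hm => hn.trans hm) _ (hsub n)⟩

/-- Order bounded real functionals are exhaustive. -/
theorem exh_of_bounded {f : E →+ ℝ} (hf : ∀ e : E, ∃ K : ℝ, ∀ y, 0 ≤ y → y ≤ e → |f y| ≤ K) :
    Exh f := by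
  classical
  rintro a ⟨ha, e, he⟩
  obtain ⟨K, hK⟩ := hf e
  have hFe : ∀ F : Finset ℕ, 0 ≤ ∑ n ∈ F, a n ∧ ∑ n ∈ F, a n ≤ e := by
    intro F
    refine ⟨Finset.sum_nonneg fun n _ => ha n, ?_⟩
    obtain ⟨M, hM⟩ : ∃ M, F ⊆ Finset.range M := ⟨F.sup id + 1, fun n hn => by
      rw [Finset.mem_range]
      exact Nat.lt_succ_of_le (Finset.le_sup (f := id) hn)⟩
    exact (Finset.sum_le_sum_of_subset_of_nonneg hM fun n _ _ => ha n).trans (he M)
  have h1 : ∀ F : Finset ℕ, ∑ n ∈ F, |f (a n)| ≤ 2 * K := by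
    intro F
    have h2 : ∑ n ∈ F, |f (a n)| = (∑ n ∈ F with 0 ≤ f (a n), f (a n)) -
        ∑ n ∈ F with ¬ 0 ≤ f (a n), f (a n) := by
      rw [← Finset.sum_filter_add_sum_filter_not F (fun n => 0 ≤ f (a n)) (fun n => |f (a n)|),
        sub_eq_add_neg, ← Finset.sum_neg_distrib]
      congr 1
      · exact Finset.sum_congr rfl fun n hn => abs_of_nonneg (Finset.mem_filter.1 hn).2
      · exact Finset.sum_congr rfl fun n hn => abs_of_neg (not_le.1 (Finset.mem_filter.1 hn).2)
    rw [h2, ← map_sum, ← map_sum]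
    have h5 := abs_le.1 (hK _ (hFe (F.filter fun n => 0 ≤ f (a n))).1 (hFe _).2)
    have h6 := abs_le.1 (hK _ (hFe (F.filter fun n => ¬ 0 ≤ f (a n))).1 (hFe _).2)
    linarith [h5.2, h6.1]
  have h2 : Summable fun n => |f (a n)| := summable_of_sum_le (fun _ => abs_nonneg _) h1
  exact (tendsto_zero_iff_abs_tendsto_zero _).2 h2.tendsto_atTop_zero

end Order

end Pool.Agent.H640.CA
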